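import Pool.Agent.Y157.PS.Stm

/-!
# The weight argument, part 3: the field of constants of the reduction
-/

set_option autoImplicit false
set_option linter.all false

open Polynomial FF Pool.Agent.Y157.PS

namespace Pool.Agent.Y748.PS

theorem res_facts {ℓ : ℕ} [Fact ℓ.Prime] {A k κ : Type} [CommRing A] [IsDomain A]
    [IsDiscreteValuationRing A] [Field k] [Field κ] [Algebra A k] [Algebra k κ] [Algebra A κ]
    [IsScalarTower A k κ] [IsFractionRing A k] [Algebra.IsAlgebraic k κ]
    [Finite (IsLocalRing.ResidueField A)] {V : ValuationSubring κ} {ϖ : A} {δ : κ} {m : ℤ}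
    (hB : Base ℓ A k κ V ϖ δ m) {F : Type} [Field F] {r : V →+* F} (hr : Res V r) :
    ∃ p a : ℕ, p.Prime ∧ CharP F p ∧ 0 < a ∧ Nat.card (IsLocalRing.ResidueField A) = p ^ a ∧
      (∀ c : F, ∃ m : ℕ, 0 < m ∧ c ^ (Nat.card (IsLocalRing.ResidueField A) ^ m) = c) ∧
      Nat.Coprime (Nat.card (IsLocalRing.ResidueField A)) ℓ := by
  classical
  let K := IsLocalRing.ResidueField A
  letI : Fintype K := Fintype.ofFinite K
  let g : A →+* V := (algebraMap A κ).codRestrict V hB.mem
  let f : A →+* F := r.comp g
  have hfz : ∀ a ∈ IsLocalRing.maximalIdeal A, f a = 0 := by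
    intro a ha
    show r (g a) = 0
    rw [hr.ker]
    exact hB.non a ha
  haveI : IsLocalHom f := by
    refine ⟨fun a ha => ?_⟩
    by_contra h
    have h1 : a ∈ IsLocalRing.maximalIdeal A := h
    rw [hfz a h1] at ha
    exact not_isUnit_zero ha
  let i : K →+* F := IsLocalRing.ResidueField.lift f
  obtain ⟨p, hp⟩ := CharP.exists K
  obtain ⟨n, hpp, hn⟩ := FiniteField.card K p
  have hq : Nat.card K = p ^ (n : ℕ) := by rw [Nat.card_eq_fintype_card, hn]
  have hcop : Nat.Coprime (Nat.card K) ℓ := by
    rw [hq]
    refine Nat.Coprime.pow_left _ ((Nat.coprime_primes hpp (Fact.out : ℓ.Prime)).2 ?_)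
    rintro rfl
    have h2 := (hB.lunit.map (IsLocalRing.residue A))
    rw [map_natCast] at h2
    have h3 : ((p : ℕ) : K) = 0 := CharP.cast_eq_zero K p
    rw [h3] at h2
    exact not_isUnit_zero h2
  refine ⟨p, n, hpp, charP_of_injective_ringHom i.injective p, n.pos, hq, fun c => ?_, hcop⟩
  -- every element is algebraic over the finite field
  letI : Algebra K F := i.toAlgebra
  have halg : IsAlgebraic K c := by
    obtain ⟨z, rfl⟩ := hr.surj c
    have h1 : IsAlgebraic A (z : κ) :=
      (IsFractionRing.isAlgebraic_iff A k κ).2 (Algebra.IsAlgebraic.isAlgebraic _)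
    obtain ⟨P, hP0, hP⟩ := h1
    letI : StrongNormalizationMonoid A := UniqueFactorizationMonoid.normalizationMonoid
    letI : StrongNormalizedGCDMonoid A := UniqueFactorizationMonoid.toStrongNormalizedGCDMonoid A
    set Q := P.primPart with hQ
    have hPQ : P = C P.content * Q := P.eq_C_content_mul_primPart
    have hinj : Function.Injective (algebraMap A κ) := by
      rw [IsScalarTower.algebraMap_eq A k κ]
      exact (algebraMap k κ).injective.comp (IsFractionRing.injective A k)
    have hc0 : P.content ≠ 0 := fun h => hP0 (content_eq_zero_iff.1 h)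
    have hQz : aeval (z : κ) Q = 0 := by
      rw [hPQ, map_mul, aeval_C] at hP
      refine (mul_eq_zero.1 hP).resolve_left fun h => hc0 ?_
      exact hinj (by rw [h, map_zero])
    have hQ0 : Q.map (IsLocalRing.residue A) ≠ 0 := by
      intro h
      have h2 : C ϖ ∣ Q := by
        rw [C_dvd_iff_dvd_coeff]
        intro j
        have h3 : IsLocalRing.residue A (Q.coeff j) = 0 := by
          rw [← coeff_map, h, coeff_zero]
        rw [IsLocalRing.residue_eq_zero_iff,
          (IsDiscreteValuationRing.irreducible_iff_uniformizer ϖ).1 hB.irr,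
          Ideal.mem_span_singleton] at h3
        exact h3
      exact hB.irr.not_isUnit (P.isPrimitive_primPart ϖ h2)
    refine ⟨Q.map (IsLocalRing.residue A), hQ0, ?_⟩
    rw [aeval_def, eval₂_map]
    have h4 : (algebraMap K F).comp (IsLocalRing.residue A) = r.comp g := by
      ext a
      show i (IsLocalRing.residue A a) = f a
      exact IsLocalRing.ResidueField.lift_residue_apply f a
    rw [h4, ← Polynomial.hom_eval₂]
    have h5 : eval₂ g z Q = 0 := by
      apply Subtype.ext
      have h6 : ((eval₂ g z Q : V) : κ) = eval₂ (algebraMap A κ) (z : κ) Q := by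
        have := Polynomial.hom_eval₂ Q g V.subtype z
        exact this
      rw [h6, ← aeval_def, hQz]
      rfl
    rw [h5, map_zero]
  haveI : FiniteDimensional K (IntermediateField.adjoin K {c}) :=
    IntermediateField.adjoin.finiteDimensional halg.isIntegral
  haveI : Finite (IntermediateField.adjoin K {c}) := Module.finite_of_finite K
  letI : Fintype (IntermediateField.adjoin K {c}) := Fintype.ofFinite _
  refine ⟨Module.finrank K (IntermediateField.adjoin K {c}), Module.finrank_pos, ?_⟩
  have h1 : Nat.card (IntermediateField.adjoin K {c}) =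
      Nat.card K ^ Module.finrank K (IntermediateField.adjoin K {c}) :=
    Module.natCard_eq_pow_finrank
  have h2 := FiniteField.pow_card
    (⟨c, IntermediateField.mem_adjoin_simple_self K c⟩ : IntermediateField.adjoin K {c})
  rw [← Nat.card_eq_fintype_card, h1] at h2
  exact congrArg Subtype.val h2

end Pool.Agent.Y748.PS
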