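import Pool.Agent.Y748.PS.W2
import Pool.Agent.Y748.PS.W3

/-!
# The weight argument
-/

set_option autoImplicit false
set_option linter.all false

open Polynomial FF Pool.Agent.Y157.PS

namespace Pool.Agent.Y748.PS

section

variable {κ R M : Type} [Field κ] [Field R] [Field M] [Algebra κ R] [Algebra R M] [Algebra κ M]
  [IsScalarTower κ R M] {x : R}
variable {k : Type} [Field k] [Algebra k κ] {Y : M} {δ : κ} {s : (κ ≃ₐ[k] κ) →* RingAut M}

theorem isU_alg {V : ValuationSubring κ} {X : M} {O : ValuationSubring M} (hO : Gauss V X O)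
    {c : κ} (hc : IsU V c) : IsU O (algebraMap κ M c) :=
  ⟨by rw [Ne, FaithfulSMul.algebraMap_eq_zero_iff]; exact hc.1, (hO.1 c).2 hc.2.1,
    by rw [← map_inv₀]; exact (hO.1 _).2 hc.2.2⟩

theorem nu_alg {V : ValuationSubring κ} {X : M} {O : ValuationSubring M} (hO : Gauss V X O)
    {c : κ} : algebraMap κ M c ∈ O.nonunits ↔ c ∈ V.nonunits := by
  rw [ValuationSubring.mem_nonunits_iff_or, ValuationSubring.mem_nonunits_iff_or, ← map_inv₀,
    hO.1, FaithfulSMul.algebraMap_eq_zero_iff]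

theorem isU_of_pow {K : Type} [Field K] {O : ValuationSubring K} {z : K} {m : ℕ} (hm : 0 < m)
    (h : IsU O (z ^ m)) : IsU O z := by
  have hz : z ≠ 0 := by
    rintro rfl
    exact h.1 (zero_pow hm.ne')
  obtain ⟨n, rfl⟩ : ∃ n, m = n + 1 := ⟨m - 1, by omega⟩
  rcases O.mem_or_inv_mem z with h1 | h1
  · refine ⟨hz, h1, ?_⟩
    have h2 : z⁻¹ = z ^ n * (z ^ (n + 1))⁻¹ := by
      rw [pow_succ]; field_simp
    rw [h2]
    exact mul_mem (pow_mem h1 n) h.2.2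
  · refine ⟨hz, ?_, h1⟩
    have h2 : z = z⁻¹ ^ n * z ^ (n + 1) := by
      rw [pow_succ, inv_pow]; field_simp
    rw [h2]
    exact mul_mem (pow_mem h1 n) h.2.1

theorem isU_one {K : Type} [Field K] {O : ValuationSubring K} : IsU O (1 : K) :=
  ⟨one_ne_zero, one_mem _, by rw [inv_one]; exact one_mem _⟩

theorem isU_mul {K : Type} [Field K] {O : ValuationSubring K} {a b : K} (ha : IsU O a)
    (hb : IsU O b) : IsU O (a * b) :=
  ⟨mul_ne_zero ha.1 hb.1, mul_mem ha.2.1 hb.2.1, by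
    rw [mul_inv]; exact mul_mem ha.2.2 hb.2.2⟩

/-- `Y` is a unit of the Gauss valuation -/
theorem isU_Y {ℓ : ℕ} [Fact ℓ.Prime] {B : Finset κ} (hC : Cov ℓ κ R M x B Y)
    {V : ValuationSubring κ} (hG : Good V B) {O : ValuationSubring M}
    (hO : Gauss V (algebraMap R M x) O) : IsU O Y := by
  classical
  refine isU_of_pow (Fact.out : ℓ.Prime).pos ?_
  rw [hC.eqn]
  have h1 : ∀ e ∈ B, IsU O (algebraMap R M x - algebraMap κ M e) := by
    intro e he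
    have h2 := hO.2 (X - C e) (fun n => by
      rw [coeff_sub, coeff_X, coeff_C]
      refine sub_mem ?_ ?_
      · split_ifs
        · exact one_mem _
        · exact zero_mem _
      · split_ifs
        · exact hG.1 e he
        · exact zero_mem _) ⟨1, by
        rw [coeff_sub, coeff_X_one, coeff_C_succ, sub_zero]
        exact isU_one⟩
    rw [map_sub, aeval_X, aeval_C] at h2
    exact h2
  have h3 : ∀ S : Finset κ, S ⊆ B → IsU O (∏ e ∈ S, (algebraMap R M x - algebraMap κ M e)) := by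
    intro S
    induction S using Finset.induction_on with
    | empty => intro _; rw [Finset.prod_empty]; exact isU_one
    | insert a S ha ih =>
      intro hS
      rw [Finset.prod_insert ha]
      exact isU_mul (h1 a (hS (Finset.mem_insert_self a S)))
        (ih fun b hb => hS (Finset.mem_insert_of_mem hb))
  exact h3 B subset_rfl

/-- the Galois group multiplies `Y` by roots of unity -/
theorem Y_gal [IsAlgClosed κ] [CharZero κ] {ℓ : ℕ} [Fact ℓ.Prime] {B : Finset κ}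
    (hC : Cov ℓ κ R M x B Y) (hY : Y ≠ 0) (γ : M ≃ₐ[R] M) :
    ∃ c : κ, c ^ ℓ = 1 ∧ γ Y = algebraMap κ M c * Y := by
  have h1 : (γ Y) ^ ℓ = Y ^ ℓ := by
    rw [← map_pow, hC.eqn, map_prod]
    refine Finset.prod_congr rfl fun e _ => ?_
    rw [map_sub, AlgEquiv.commutes, gal_const]
  have h2 : (γ Y / Y) ^ ℓ = 1 := by
    rw [div_pow, h1, div_self (pow_ne_zero _ hY)]
  obtain ⟨c, hc, hc'⟩ := rou_const (κ := κ) (Fact.out : ℓ.Prime).pos h2
  exact ⟨c, hc, by rw [hc', div_mul_cancel₀ _ hY]⟩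

theorem Y_mem_LL [IsAlgClosed κ] [CharZero κ] {ℓ : ℕ} [Fact ℓ.Prime] {B : Finset κ}
    (hC : Cov ℓ κ R M x B Y) {V : ValuationSubring κ} (hG : Good V B) (hl : IsU V (ℓ : κ))
    (hδ : δ ≠ 0) {O : ValuationSubring M} (hO : Gauss V (algebraMap R M x) O)
    (hs : Sec k κ R M x Y δ s) : Y ∈ LL R V O s δ := by
  have hU := isU_Y hC hG hO
  intro g γ hγ
  obtain ⟨c, hc, hgc⟩ := Y_gal hC hU.1 g
  rw [hgc, map_mul, gal_const]
  congr 1
  obtain ⟨σ, h1, h2, h3⟩ := hγ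
  have h4 := h3 Y hU.2.1
  rw [hs.fixy, h2, div_self hδ, map_one, one_mul] at h4
  obtain ⟨c', hc', hgc'⟩ := Y_gal hC hU.1 γ
  have h5 : algebraMap κ M c' - 1 ∈ O.nonunits := by
    have h6 : algebraMap κ M c' - 1 = Y⁻¹ * (γ Y - Y) := by
      rw [hgc']; field_simp [hU.1]
    rw [h6]
    exact nu_mul hU.2.2 h4
  have h7 : algebraMap κ M c' = 1 := by
    refine rou_eq_one (m := ℓ) ?_ (by rw [← map_pow, hc', map_one]) h5
    have := isU_alg hO hl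
    rwa [map_natCast] at this
  rw [hgc', h7, one_mul]

/-- the characters of the inertia group attached to an element with an `ℓ ^ n`-th power in `N` -/
theorem chi_exists [IsAlgClosed κ] [CharZero κ] {ℓ : ℕ} [Fact ℓ.Prime]
    (hG2 : S_G2) {B : Finset κ} (hC : Cov ℓ κ R M x B Y)
    {V : ValuationSubring κ} (hl : IsU V (ℓ : κ)) {O : ValuationSubring M}
    (hO : Gauss V (algebraMap R M x) O)
    (hu : ∀ O' : ValuationSubring M, Gauss V (algebraMap R M x) O' → O' = O)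
    (hex : ∀ σ : κ ≃ₐ[k] κ, Ine V σ → ∃ γ : M ≃ₐ[R] M, Rel O s σ γ)
    {h : M} (hh : h ≠ 0) {n : ℕ} (hL : h ^ (ℓ ^ n) ∈ LL R V O s δ) :
    ∃ χ : (κ ≃ₐ[k] κ) → κ, ∀ σ, Ine V σ → σ δ = δ → χ σ ^ (ℓ ^ n) = 1 ∧
      ∀ γ : M ≃ₐ[R] M, Rel O s σ γ → γ h = algebraMap κ M (χ σ) * h := by
  classical
  have h1 : ∀ σ : κ ≃ₐ[k] κ, ∃ c : κ, Ine V σ → σ δ = δ → c ^ (ℓ ^ n) = 1 ∧
      ∀ γ : M ≃ₐ[R] M, Rel O s σ γ → γ h = algebraMap κ M c * h := by
    intro σ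
    by_cases hσ : Ine V σ ∧ σ δ = δ
    · obtain ⟨γ, hγ⟩ := hex σ hσ.1
      have h2 : γ (h ^ (ℓ ^ n)) = h ^ (ℓ ^ n) := LL_fix hL ⟨σ, hσ.1, hσ.2, hγ⟩
      have h3 : (γ h / h) ^ (ℓ ^ n) = 1 := by
        rw [div_pow, ← map_pow, h2, div_self (pow_ne_zero _ hh)]
      obtain ⟨c, hc, hc'⟩ := rou_const (κ := κ) (pow_pos (Fact.out : ℓ.Prime).pos n) h3
      refine ⟨c, fun _ _ => ⟨hc, fun γ' hγ' => ?_⟩⟩
      rw [Rel.unique hG2 hC hO hl hu hγ' hγ, hc', div_mul_cancel₀ _ hh]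
    · exact ⟨1, fun a b => absurd ⟨a, b⟩ hσ⟩
  choose χ hχ using h1
  exact ⟨χ, hχ⟩

end

section

variable {A k κ R M : Type} [CommRing A] [IsDomain A]
    [IsDiscreteValuationRing A] [Field k] [Field κ] [Algebra A k] [Algebra k κ] [Algebra A κ]
    [IsScalarTower A k κ] [IsFractionRing A k] [CharZero k] [IsAlgClosure k κ]
    [Finite (IsLocalRing.ResidueField A)] [Field R] [Field M] [Algebra κ R] [Algebra R M]
    [Algebra κ M] [IsScalarTower κ R M]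

theorem isU_ell {ℓ : ℕ} {V : ValuationSubring κ} {ϖ : A} {δ : κ} {m : ℤ}
    (hB : Base ℓ A k κ V ϖ δ m) : IsU V (ℓ : κ) := by
  obtain ⟨a, ha⟩ := hB.lunit.exists_right_inv
  have h1 : (ℓ : κ) * algebraMap A κ a = 1 := by
    rw [← map_natCast (algebraMap A κ) ℓ, ← map_mul, ha, map_one]
  have h2 : (ℓ : κ) ≠ 0 := left_ne_zero_of_mul_eq_one h1
  refine ⟨h2, ?_, ?_⟩
  · have := hB.mem (ℓ : A)
    rwa [map_natCast] at this
  · rw [← eq_inv_of_mul_eq_one_right h1]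
    exact hB.mem a

variable {ℓ : ℕ} [Fact ℓ.Prime] [IsAlgClosed κ] [CharZero κ] {V : ValuationSubring κ}
  {ϖ : A} {δ : κ} {m : ℤ} {x : R} {B : Finset κ} {Y : M} {s : (κ ≃ₐ[k] κ) →* RingAut M}
  {O : ValuationSubring M}

theorem chi_kum (hB : Base ℓ A k κ V ϖ δ m) (hG2 : S_G2) (hKUM : S_KUM)
    (hC : Cov ℓ κ R M x B Y) (hO : Gauss V (algebraMap R M x) O)
    (hu : ∀ O' : ValuationSubring M, Gauss V (algebraMap R M x) O' → O' = O)
    (hs : Sec k κ R M x Y δ s)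
    (hex : ∀ σ : κ ≃ₐ[k] κ, Ine V σ → ∃ γ : M ≃ₐ[R] M, Rel O s σ γ)
    {φ : κ ≃ₐ[k] κ} (hφ : Fro V (Nat.card (IsLocalRing.ResidueField A)) φ) (hφδ : φ δ = δ)
    {h : M} (hh : h ≠ 0) {n : ℕ} {χ : (κ ≃ₐ[k] κ) → κ}
    (hχ : ∀ σ, Ine V σ → σ δ = δ → χ σ ^ (ℓ ^ n) = 1 ∧
      ∀ γ : M ≃ₐ[R] M, Rel O s σ γ → γ h = algebraMap κ M (χ σ) * h)
    {σ : κ ≃ₐ[k] κ} (hσ : Ine V σ) (hσδ : σ δ = δ) :
    χ (φ * σ * φ⁻¹) = χ σ ^ Nat.card (IsLocalRing.ResidueField A) := by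
  refine hKUM ℓ A k κ V ϖ δ m hB φ hφ hφδ n χ (fun σ h1 h2 => (hχ σ h1 h2).1) ?_ ?_ σ hσ hσδ
  · intro σ σ' h1 h2 h1' h2'
    obtain ⟨γ, hγ⟩ := hex σ h1
    obtain ⟨γ', hγ'⟩ := hex σ' h1'
    have h3 := (hχ (σ * σ') (ine_mul h1 h1') (by rw [AlgEquiv.mul_apply, h2', h2])).2 _
      (Rel.mul hO hu hs h1.1 hγ hγ')
    rw [AlgEquiv.mul_apply, (hχ σ' h1' h2').2 γ' hγ', map_mul, gal_const, (hχ σ h1 h2).2 γ hγ,
      ← mul_assoc, ← map_mul] at h3
    have h4 := mul_right_cancel₀ hh h3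
    have h5 := (algebraMap κ M).injective h4
    rw [← h5, mul_comm]
  · obtain ⟨c, hc0, hc⟩ := (hG2 ℓ κ R M x B Y hC V O hO).1 h hh
    obtain ⟨E2, hE2, hE2'⟩ := hs.cont h
    haveI := hE2
    have halg : Algebra.IsAlgebraic k κ := IsAlgClosure.isAlgebraic
    haveI : FiniteDimensional k (IntermediateField.adjoin k {c}) :=
      IntermediateField.adjoin.finiteDimensional (halg.isAlgebraic c).isIntegral
    refine ⟨IntermediateField.adjoin k {c} ⊔ E2, inferInstance, fun σ hσE h1 h2 => ?_⟩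
    rw [IntermediateField.mem_fixingSubgroup_iff] at hσE
    have h3 : σ c = c := hσE c ((le_sup_left : IntermediateField.adjoin k {c} ≤ _)
      (IntermediateField.mem_adjoin_simple_self k c))
    have h4 : s σ h = h := hE2' σ (by
      rw [IntermediateField.mem_fixingSubgroup_iff]
      exact fun y hy => hσE y ((le_sup_right : E2 ≤ _) hy))
    obtain ⟨γ, hγ⟩ := hex σ h1
    have h5 := hγ _ hc.2.1
    rw [map_div₀, map_div₀, gal_const, hs.const, h3, h4, (hχ σ h1 h2).2 γ hγ] at h5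
    have h6 : algebraMap κ M (χ σ) - 1 ∈ O.nonunits := by
      have h7 : algebraMap κ M (χ σ) - 1 = (h / algebraMap κ M c)⁻¹ *
          (algebraMap κ M (χ σ) * h / algebraMap κ M c - h / algebraMap κ M c) := by
        have hc1 : algebraMap κ M c ≠ 0 := by
          rw [Ne, FaithfulSMul.algebraMap_eq_zero_iff]; exact hc0
        field_simp
      rw [h7]
      exact nu_mul hc.2.2 h5
    have h8 : algebraMap κ M (χ σ) = 1 := by
      refine rou_eq_one (m := ℓ ^ n) ?_ (by rw [← map_pow, (hχ σ h1 h2).1, map_one]) h6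
      have := isU_pow (isU_alg hO (isU_ell hB)) n
      rw [map_natCast] at this
      rwa [Nat.cast_pow]
    exact (algebraMap κ M).injective (by rw [h8, map_one])

/-- `φ` acts on the roots of unity by the `q`-th power -/
theorem frob_rou (hl : IsU V (ℓ : κ)) {q : ℕ} {φ : κ ≃ₐ[k] κ} (hφ : Fro V q φ) {n : ℕ} {c : κ}
    (hc : c ^ (ℓ ^ n) = 1) : φ c = c ^ q := by
  have hU : IsU V c := isU_of_pow (pow_pos (Fact.out : ℓ.Prime).pos n) (by rw [hc]; exact isU_one)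
  have hq0 : c ^ q ≠ 0 := pow_ne_zero _ hU.1
  have h1 : φ c / c ^ q = 1 := by
    refine rou_eq_one (O := V) (m := ℓ ^ n) ?_ ?_ ?_
    · rw [Nat.cast_pow]
      exact isU_pow hl n
    · rw [div_pow, ← map_pow, hc, map_one, ← pow_mul, mul_comm, pow_mul, hc, one_pow, div_one]
    · have h2 : φ c / c ^ q - 1 = (c ^ q)⁻¹ * (φ c - c ^ q) := by
        field_simp
      rw [h2]
      exact nu_mul (isU_pow hU q).2.2 (hφ.2 c hU.2.1)
  rwa [div_eq_one_iff_eq hq0] at h1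

theorem eq_of_pow_eq {K : Type} [Field K] {a b : K} {m q : ℕ} (hm : 0 < m) (ha : a ^ m = 1)
    (hb : b ^ m = 1)
    (hq : a ^ q = b ^ q) (hc : Nat.Coprime q m) : a = b := by
  have hb0 : b ≠ 0 := by
    rintro rfl
    rw [zero_pow hm.ne'] at hb
    exact zero_ne_one hb
  have h1 : (a / b) ^ m = 1 := by rw [div_pow, ha, hb, div_one]
  have h2 : (a / b) ^ q = 1 := by rw [div_pow, hq, div_self (pow_ne_zero _ hb0)]
  have h3 : orderOf (a / b) ∣ 1 := by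
    rw [← hc]
    exact Nat.dvd_gcd (orderOf_dvd_of_pow_eq_one h2) (orderOf_dvd_of_pow_eq_one h1)
  have h4 : a / b = 1 := orderOf_eq_one_iff.1 (Nat.dvd_one.1 h3)
  rwa [div_eq_one_iff_eq hb0] at h4

/-- the weight argument -/
theorem frob_fix (hB : Base ℓ A k κ V ϖ δ m) (hG2 : S_G2) (hKUM : S_KUM)
    (hC : Cov ℓ κ R M x B Y) (hO : Gauss V (algebraMap R M x) O)
    (hu : ∀ O' : ValuationSubring M, Gauss V (algebraMap R M x) O' → O' = O)
    (hs : Sec k κ R M x Y δ s)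
    (hex : ∀ σ : κ ≃ₐ[k] κ, Ine V σ → ∃ γ : M ≃ₐ[R] M, Rel O s σ γ)
    (hcop : Nat.Coprime (Nat.card (IsLocalRing.ResidueField A)) ℓ)
    {φ : κ ≃ₐ[k] κ} (hφ : Fro V (Nat.card (IsLocalRing.ResidueField A)) φ) (hφδ : φ δ = δ)
    {h : M} (hh : h ≠ 0) {n : ℕ} (hL : h ^ (ℓ ^ n) ∈ LL R V O s δ)
    {γ : M ≃ₐ[R] M} (hγ : γ ∈ GI (R := R) V O s δ) :
    γ (s φ h / h) = s φ h / h := by
  have hl := isU_ell hB
  have hR := hC.rat
  have hh2 : s φ h ≠ 0 := by rw [Ne, EmbeddingLike.map_eq_zero_iff]; exact hh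
  have hL2 : (s φ h) ^ (ℓ ^ n) ∈ LL R V O s δ := by
    rw [← map_pow]
    exact LL_s hO hu hR hs hφ.1 hφδ hL
  obtain ⟨χ₁, hχ₁⟩ := chi_exists hG2 hC hl hO hu hex hh hL
  obtain ⟨χ₂, hχ₂⟩ := chi_exists hG2 hC hl hO hu hex hh2 hL2
  obtain ⟨σ, h1, h2, h3⟩ := hγ
  have hc1 : Ine V (φ * σ * φ⁻¹) := ine_conj hφ.1 h1
  have hc2 : (φ * σ * φ⁻¹) δ = δ := by
    rw [AlgEquiv.mul_apply, AlgEquiv.mul_apply, fix_inv hφδ, h2, hφδ]
  have h4 := (hχ₂ _ hc1 hc2).2 _ (h3.conj hO hu hR hs hφ.1)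
  rw [chi_kum hB hG2 hKUM hC hO hu hs hex hφ hφδ hh2 hχ₂ h1 h2, conj_apply, s_inv_apply,
    (hχ₁ σ h1 h2).2 γ h3, map_mul, hs.const, frob_rou hl hφ (hχ₁ σ h1 h2).1] at h4
  have h5 := (algebraMap κ M).injective (mul_right_cancel₀ hh2 h4)
  have h6 : χ₁ σ = χ₂ σ := eq_of_pow_eq (pow_pos (Fact.out : ℓ.Prime).pos n) (hχ₁ σ h1 h2).1
    (hχ₂ σ h1 h2).1 h5 (Nat.Coprime.pow_right n hcop)
  have h7 : algebraMap κ M (χ₂ σ) ≠ 0 := by
    rw [Ne, FaithfulSMul.algebraMap_eq_zero_iff]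
    intro h8
    have := (hχ₂ σ h1 h2).1
    rw [h8, zero_pow (pow_pos (Fact.out : ℓ.Prime).pos n).ne'] at this
    exact zero_ne_one this
  rw [map_div₀, (hχ₁ σ h1 h2).2 γ h3, (hχ₂ σ h1 h2).2 γ h3, h6, mul_div_mul_left _ _ h7]

end

/-- **Task WGT** -/
theorem wgt : S_G2 → S_G3 → S_PROL → S_DIVS → S_FINS → S_FIXF → S_SURJ → S_KUM → S_TAU →
    S_WGT := by
  intro hG2 hG3 hPROL hDIVS hFINS hFIXF hSURJ hKUM hTAU
  intro ℓ _ A k κ R M _ _ _ _ _ _ _ _ _ _ _ _ _ _ _ _ _ _ _ V ϖ δ m hB x B Y hC hGood F _ r hr D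
    s hs O hO hu
  haveI : IsAlgClosed κ := IsAlgClosure.isAlgClosed k
  haveI : CharZero κ := charZero_of_injective_algebraMap (algebraMap k κ).injective
  haveI : CharZero R := charZero_of_injective_algebraMap (algebraMap κ R).injective
  haveI halg : Algebra.IsAlgebraic k κ := IsAlgClosure.isAlgebraic
  have hl := isU_ell hB
  have hδ : δ ≠ 0 := by
    rintro rfl
    have := hB.δv.1
    rw [zero_pow (Fact.out : ℓ.Prime).ne_zero, zero_div] at this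
    exact this rfl
  obtain ⟨p, a, hp, hchar, ha, hq, hF, hcop⟩ := res_facts hB hr
  haveI : Fact p.Prime := ⟨hp⟩
  obtain ⟨⟨φ, hφ, hφδ⟩, -⟩ := hTAU ℓ A k κ V ϖ δ m hB
  have hex : ∀ σ : κ ≃ₐ[k] κ, Ine V σ → ∃ γ : M ≃ₐ[R] M, Rel O s σ γ :=
    fun σ hσ => Rel.exists hG3 hC hO hu hs hσ
  have hY := Y_mem_LL hC hGood hl hδ hO hs
  have hroot : ∀ h : M, h ^ ℓ ∈ LL R V O s δ → h ∈ LL R V O s δ := by
    intro h hh
    by_cases h0 : h = 0
    · rw [h0]; exact zero_mem _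
    intro g γ hγ
    have h1 : g h ≠ 0 := by rw [Ne, EmbeddingLike.map_eq_zero_iff]; exact h0
    have h2 : (g h) ^ ℓ ∈ LL R V O s δ := by
      rw [← map_pow]; exact LL_gal hh g
    obtain ⟨N, hLev, hm1, hYN, hNL, hNs⟩ := exists_level halg hC hO hu hs hφ.1 hφδ h2 hY
    obtain ⟨g0, m0, w, hg0, hg0m, hw, heq⟩ := hSURJ ℓ M N.toSubfield (s φ) hNs
      (hDIVS ℓ κ R M x B Y hC N hLev hYN) (hFINS ℓ κ R M x B Y hC N hLev hYN)
      (hFIXF ℓ κ R M x B Y hC F V r hr hGood hl D p (Nat.card (IsLocalRing.ResidueField A)) a ha hq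
        hF O hO hu N hLev hYN (s φ) (φ : κ ≃+* κ) (fun c => hs.const φ c) (hs.fixx φ) hNs hφ.1
        hφ.2) (g h) 1 h1 (by rw [pow_one]; exact hm1)
    rw [heq, map_mul, frob_fix hB hG2 hKUM hC hO hu hs hex hcop hφ hφδ hg0 (hNL hg0m) hγ,
      LL_fix (hNL hw) hγ]
  have hprim : ∃ ζ : R, IsPrimitiveRoot ζ ℓ := by
    haveI : NeZero ℓ := ⟨(Fact.out : ℓ.Prime).ne_zero⟩
    haveI : NeZero (ℓ : κ) := ⟨hl.1⟩
    obtain ⟨ζ, hζ⟩ := HasEnoughRootsOfUnity.exists_primitiveRoot κ ℓ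
    exact ⟨algebraMap κ R ζ, hζ.map_of_injective (algebraMap κ R).injective⟩
  have htop := hPROL ℓ R M hprim hC.gal hC.pow (LL R V O s δ) hroot
  intro σ hσ hσδ z hz
  obtain ⟨γ, hγ⟩ := hex σ hσ
  have h1 : z ∈ LL R V O s δ := by rw [htop]; trivial
  have h2 := hγ z hz
  rw [LL_fix h1 ⟨σ, hσ, hσδ, hγ⟩] at h2
  have h3 := neg_mem h2
  rwa [neg_sub] at h3

end Pool.Agent.Y748.PS
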