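import Pool.Agent.Y748.PS.W1

/-!
# The weight argument, part 2: the fixed field `L` and the stable levels `N`
-/

set_option autoImplicit false
set_option linter.all false

open Polynomial FF Pool.Agent.Y157.PS

namespace Pool.Agent.Y748.PS

variable {κ R M : Type} [Field κ] [Field R] [Field M] [Algebra κ R] [Algebra R M] [Algebra κ M]
  [IsScalarTower κ R M] {x : R}
variable {k : Type} [Field k] [Algebra k κ] {Y : M} {δ : κ} {s : (κ ≃ₐ[k] κ) →* RingAut M}

/-- the elements of the Galois group which act like elements of the inertia group -/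
def GI (V : ValuationSubring κ) (O : ValuationSubring M) (s : (κ ≃ₐ[k] κ) →* RingAut M) (δ : κ) :
    Set (M ≃ₐ[R] M) := {γ | ∃ σ : κ ≃ₐ[k] κ, Ine V σ ∧ σ δ = δ ∧ Rel O s σ γ}

/-- the field of the elements whose conjugates are fixed by all these automorphisms -/
def LL (R : Type) [Field R] [Algebra R M] (V : ValuationSubring κ) (O : ValuationSubring M)
    (s : (κ ≃ₐ[k] κ) →* RingAut M) (δ : κ) : IntermediateField R M where
  carrier := {z | ∀ g : M ≃ₐ[R] M, ∀ γ ∈ GI (R := R) V O s δ, γ (g z) = g z}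
  mul_mem' := fun ha hb g γ hγ => by rw [map_mul, map_mul, ha g γ hγ, hb g γ hγ]
  one_mem' := fun g γ hγ => by rw [map_one, map_one]
  add_mem' := fun ha hb g γ hγ => by rw [map_add, map_add, ha g γ hγ, hb g γ hγ]
  zero_mem' := fun g γ hγ => by rw [map_zero, map_zero]
  algebraMap_mem' := fun r g γ hγ => by rw [AlgEquiv.commutes, AlgEquiv.commutes]
  inv_mem' := fun a ha g γ hγ => by rw [map_inv₀, map_inv₀, ha g γ hγ]

theorem mem_LL {V : ValuationSubring κ} {O : ValuationSubring M} {z : M} :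
    z ∈ LL R V O s δ ↔ ∀ g : M ≃ₐ[R] M, ∀ γ ∈ GI (R := R) V O s δ, γ (g z) = g z := Iff.rfl

theorem LL_gal {V : ValuationSubring κ} {O : ValuationSubring M} {z : M}
    (hz : z ∈ LL R V O s δ) (g : M ≃ₐ[R] M) : g z ∈ LL R V O s δ :=
  fun g' γ hγ => hz (g' * g) γ hγ

theorem LL_fix {V : ValuationSubring κ} {O : ValuationSubring M} {z : M}
    (hz : z ∈ LL R V O s δ) {γ : M ≃ₐ[R] M} (hγ : γ ∈ GI (R := R) V O s δ) : γ z = z :=
  hz 1 γ hγ

theorem fix_inv {φ : κ ≃ₐ[k] κ} {δ : κ} (h : φ δ = δ) : φ⁻¹ δ = δ := by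
  conv_lhs => rw [← h]
  rw [← AlgEquiv.mul_apply, inv_mul_cancel, AlgEquiv.one_apply]

theorem GI_conj {V : ValuationSubring κ} {O : ValuationSubring M}
    (hO : Gauss V (algebraMap R M x) O)
    (hu : ∀ O' : ValuationSubring M, Gauss V (algebraMap R M x) O' → O' = O)
    (hR : RatF κ x) (hs : Sec k κ R M x Y δ s) {φ : κ ≃ₐ[k] κ} (hφ : Dec V φ) (hφδ : φ δ = δ)
    {γ : M ≃ₐ[R] M} (hγ : γ ∈ GI (R := R) V O s δ) : conj hR hs φ γ ∈ GI (R := R) V O s δ := by
  obtain ⟨σ, h1, h2, h3⟩ := hγ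
  refine ⟨φ * σ * φ⁻¹, ine_conj hφ h1, ?_, h3.conj hO hu hR hs hφ⟩
  rw [AlgEquiv.mul_apply, AlgEquiv.mul_apply, fix_inv hφδ, h2, hφδ]

theorem LL_s {V : ValuationSubring κ} {O : ValuationSubring M}
    (hO : Gauss V (algebraMap R M x) O)
    (hu : ∀ O' : ValuationSubring M, Gauss V (algebraMap R M x) O' → O' = O)
    (hR : RatF κ x) (hs : Sec k κ R M x Y δ s) {φ : κ ≃ₐ[k] κ} (hφ : Dec V φ) (hφδ : φ δ = δ)
    {z : M} (hz : z ∈ LL R V O s δ) : s φ z ∈ LL R V O s δ := by
  intro g γ hγ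
  have h1 : ∀ (g : M ≃ₐ[R] M) (w : M), g (s φ w) = s φ (conj hR hs φ⁻¹ g w) := by
    intro g w
    rw [conj_apply, inv_inv, s_apply_inv]
  rw [h1, h1]
  congr 1
  exact hz _ _ (GI_conj hO hu hR hs (dec_inv hφ) (fix_inv hφδ) hγ)

/-- the algebraic closedness in `M` of constants: roots of unity -/
theorem rou_const [IsAlgClosed κ] [CharZero κ] {m : ℕ} (hm : 0 < m) {z : M} (hz : z ^ m = 1) :
    ∃ c : κ, c ^ m = 1 ∧ algebraMap κ M c = z := by
  haveI : NeZero m := ⟨hm.ne'⟩
  haveI : NeZero (m : κ) := ⟨Nat.cast_ne_zero.2 hm.ne'⟩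
  obtain ⟨ζ, hζ⟩ := HasEnoughRootsOfUnity.exists_primitiveRoot κ m
  have h1 : IsPrimitiveRoot (algebraMap κ M ζ) m := hζ.map_of_injective (algebraMap κ M).injective
  obtain ⟨i, -, hi⟩ := h1.eq_pow_of_pow_eq_one hz
  refine ⟨ζ ^ i, ?_, by rw [map_pow, hi]⟩
  rw [← pow_mul, mul_comm, pow_mul, hζ.pow_eq_one, one_pow]

/-! ### finite orbits -/

theorem isAlg_small (hk : Algebra.IsAlgebraic k κ) (hR : RatF κ x)
    (hM : Algebra.IsAlgebraic R M) (S : Subfield M)
    (hS : ∀ c : k, algebraMap κ M (algebraMap k κ c) ∈ S) (hxS : algebraMap R M x ∈ S) (z : M) :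
    IsAlgebraic S z := by
  have hmem : ∀ {c : M}, c ∈ algebraicClosure S M ↔ IsAlgebraic S c := mem_algebraicClosure_iff
  -- constants
  have h1 : ∀ c : κ, algebraMap κ M c ∈ algebraicClosure S M := by
    intro c
    rw [hmem]
    obtain ⟨p, hp0, hp⟩ := hk.isAlgebraic c
    let i : k →+* S := ((algebraMap κ M).comp (algebraMap k κ)).codRestrict S hS
    refine ⟨p.map i, (Polynomial.map_ne_zero_iff i.injective).2 hp0, ?_⟩
    rw [aeval_def, eval₂_map]
    have h2 : (algebraMap S M).comp i = (algebraMap κ M).comp (algebraMap k κ) := by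
      ext c; rfl
    rw [h2, ← Polynomial.hom_eval₂ p (algebraMap k κ) (algebraMap κ M) c]
    rw [aeval_def] at hp
    rw [hp, map_zero]
  have h2 : algebraMap R M x ∈ algebraicClosure S M := by
    rw [hmem]
    exact isAlgebraic_algebraMap (⟨_, hxS⟩ : S)
  have h3 : ∀ w : R, algebraMap R M w ∈ algebraicClosure S M := by
    intro w
    have hw : w ∈ IntermediateField.adjoin κ {x} := by rw [hR.gen]; trivial
    induction hw using IntermediateField.adjoin_induction with
    | mem y hy =>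
      rw [Set.mem_singleton_iff] at hy
      subst hy
      exact h2
    | algebraMap c =>
      rw [← IsScalarTower.algebraMap_apply]
      exact h1 c
    | add a b _ _ ha hb => rw [map_add]; exact add_mem ha hb
    | inv a _ ha => rw [map_inv₀]; exact inv_mem ha
    | mul a b _ _ ha hb => rw [map_mul]; exact mul_mem ha hb
  have h4 : IsAlgebraic (algebraicClosure S M) z := by
    obtain ⟨p, hp0, hp⟩ := hM.isAlgebraic z
    let i : R →+* algebraicClosure S M :=
      (algebraMap R M).codRestrict (algebraicClosure S M).toSubfield h3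
    refine ⟨p.map i, (Polynomial.map_ne_zero_iff i.injective).2 hp0, ?_⟩
    rw [aeval_def, eval₂_map]
    have h5 : (algebraMap (algebraicClosure S M) M).comp i = algebraMap R M := by
      ext c; rfl
    rw [h5, ← aeval_def]
    exact hp
  exact h4.restrictScalars S

/-- an element has only finitely many conjugates over `k(x)` -/
theorem exists_orbit (hk : Algebra.IsAlgebraic k κ) (hR : RatF κ x)
    (hM : Algebra.IsAlgebraic R M) (z : M) : ∃ T : Set M, T.Finite ∧ z ∈ T ∧
      ∀ ψ : M ≃+* M, (∀ c : k, ψ (algebraMap κ M (algebraMap k κ c)) =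
        algebraMap κ M (algebraMap k κ c)) → ψ (algebraMap R M x) = algebraMap R M x →
        ∀ w ∈ T, ψ w ∈ T := by
  let S : Subfield M := Subfield.closure
    (Set.range (fun c : k => algebraMap κ M (algebraMap k κ c)) ∪ {algebraMap R M x})
  have h1 := isAlg_small hk hR hM S (fun c => Subfield.subset_closure (Or.inl ⟨c, rfl⟩))
    (Subfield.subset_closure (Or.inr rfl)) z
  have h0 : minpoly S z ≠ 0 := minpoly.ne_zero h1.isIntegral
  refine ⟨(minpoly S z).rootSet M, (minpoly S z).rootSet_finite M, ?_, ?_⟩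
  · rw [mem_rootSet]
    exact ⟨h0, minpoly.aeval _ _⟩
  · intro ψ hψ hψx w hw
    rw [mem_rootSet] at hw ⊢
    refine ⟨h0, ?_⟩
    have h2 : ∀ c : M, c ∈ S → ψ c = c := by
      intro c hc
      induction hc using Subfield.closure_induction with
      | mem y hy =>
        rcases hy with ⟨c, rfl⟩ | hy
        · exact hψ c
        · rw [Set.mem_singleton_iff] at hy
          rw [hy, hψx]
      | one => exact map_one ψ
      | add a b _ _ ha hb => rw [map_add, ha, hb]
      | neg a _ ha => rw [map_neg, ha]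
      | inv a _ ha => rw [map_inv₀, ha]
      | mul a b _ _ ha hb => rw [map_mul, ha, hb]
    have h3 := Polynomial.hom_eval₂ (minpoly S z) (algebraMap S M) (ψ : M →+* M) w
    have h4 : (ψ : M →+* M).comp (algebraMap S M) = algebraMap S M := by
      ext c
      exact h2 c c.2
    rw [h4, ← aeval_def, ← aeval_def, hw.2, map_zero] at h3
    exact h3.symm

/-! ### levels -/

theorem lev_of_galois {ℓ : ℕ} [Fact ℓ.Prime] [CharZero R]
    (hpow : ∀ z : M, ∃ N : IntermediateField R M, z ∈ N ∧ Lev ℓ N)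
    (N : IntermediateField R M) (hfin : FiniteDimensional R N) (hgal : IsGalois R N) :
    Lev ℓ N := by
  refine ⟨hfin, hgal, ?_⟩
  obtain ⟨α, hα⟩ := Field.exists_primitive_element R N
  obtain ⟨N1, hN1, hL⟩ := hpow (α : M)
  have hle : N ≤ N1 := by
    intro w hw
    have h1 : (⟨w, hw⟩ : N) ∈ IntermediateField.adjoin R {α} := by rw [hα]; trivial
    have h2 : (IntermediateField.adjoin R {α}).map N.val = IntermediateField.adjoin R {(α : M)} := by
      rw [IntermediateField.adjoin_map, Set.image_singleton]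
      rfl
    have h3 : w ∈ IntermediateField.adjoin R {(α : M)} := by
      rw [← h2]
      exact ⟨_, h1, rfl⟩
    exact (IntermediateField.adjoin_le_iff.2 (by
      rintro _ rfl
      exact hN1)) h3
  haveI := hL.fin
  obtain ⟨m, hm⟩ := hL.card
  have h2 := IntermediateField.finrank_dvd_of_le_right hle
  rw [hm] at h2
  obtain ⟨j, -, hj⟩ := (Nat.dvd_prime_pow (Fact.out : ℓ.Prime)).1 h2
  exact ⟨j, hj⟩

/-- a level inside `L`, stable under `s(φ)`, with given elements -/
theorem exists_level {ℓ : ℕ} [Fact ℓ.Prime] [CharZero κ] {B : Finset κ}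
    (hk : Algebra.IsAlgebraic k κ)
    (hC : Cov ℓ κ R M x B Y) {V : ValuationSubring κ} {O : ValuationSubring M}
    (hO : Gauss V (algebraMap R M x) O)
    (hu : ∀ O' : ValuationSubring M, Gauss V (algebraMap R M x) O' → O' = O)
    (hs : Sec k κ R M x Y δ s) {φ : κ ≃ₐ[k] κ} (hφ : Dec V φ) (hφδ : φ δ = δ)
    {z₁ z₂ : M} (hz₁ : z₁ ∈ LL R V O s δ) (hz₂ : z₂ ∈ LL R V O s δ) :
    ∃ N : IntermediateField R M, Lev ℓ N ∧ z₁ ∈ N ∧ z₂ ∈ N ∧ N ≤ LL R V O s δ ∧
      ∀ z, s φ z ∈ N ↔ z ∈ N := by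
  haveI := hC.gal
  have hR := hC.rat
  haveI : CharZero R := charZero_of_injective_algebraMap (algebraMap κ R).injective
  have hM : Algebra.IsAlgebraic R M := inferInstance
  obtain ⟨T₁, hT₁, hm₁, hs₁⟩ := exists_orbit (k := k) hk hR hM z₁
  obtain ⟨T₂, hT₂, hm₂, hs₂⟩ := exists_orbit (k := k) hk hR hM z₂
  set T : Set M := {w | (w ∈ T₁ ∨ w ∈ T₂) ∧ w ∈ LL R V O s δ} with hT
  have hTfin : T.Finite := (hT₁.union hT₂).subset fun w hw => hw.1
  have hTgal : ∀ g : M ≃ₐ[R] M, ∀ w ∈ T, g w ∈ T := by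
    intro g w hw
    have h1 : ∀ c : k, (g : M ≃+* M) (algebraMap κ M (algebraMap k κ c)) =
      algebraMap κ M (algebraMap k κ c) := fun c => gal_const g _
    have h2 : (g : M ≃+* M) (algebraMap R M x) = algebraMap R M x := g.commutes x
    refine ⟨?_, LL_gal hw.2 g⟩
    rcases hw.1 with h | h
    · exact Or.inl (hs₁ (g : M ≃+* M) h1 h2 w h)
    · exact Or.inr (hs₂ (g : M ≃+* M) h1 h2 w h)
  have hTs : ∀ φ : κ ≃ₐ[k] κ, Dec V φ → φ δ = δ → ∀ w ∈ T, s φ w ∈ T := by
    intro φ hφ hφδ w hw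
    have h1 : ∀ c : k, (s φ) (algebraMap κ M (algebraMap k κ c)) =
      algebraMap κ M (algebraMap k κ c) := fun c => by rw [hs.const, AlgEquiv.commutes]
    have h2 : (s φ) (algebraMap R M x) = algebraMap R M x := hs.fixx φ
    refine ⟨?_, LL_s hO hu hR hs hφ hφδ hw.2⟩
    rcases hw.1 with h | h
    · exact Or.inl (hs₁ (s φ) h1 h2 w h)
    · exact Or.inr (hs₂ (s φ) h1 h2 w h)
  haveI : Finite T := hTfin
  set N := IntermediateField.adjoin R T with hN
  haveI hfin : FiniteDimensional R N :=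
    IntermediateField.finiteDimensional_adjoin fun w _ => (hM.isAlgebraic w).isIntegral
  have hnorm : Normal R N := by
    rw [IntermediateField.normal_iff_forall_map_le']
    intro g
    rw [hN, IntermediateField.adjoin_map, IntermediateField.adjoin_le_iff]
    rintro _ ⟨w, hw, rfl⟩
    exact IntermediateField.subset_adjoin R T (hTgal g w hw)
  haveI : Algebra.IsSeparable R N := inferInstance
  have hgal : IsGalois R N := ⟨⟩
  have hNs : ∀ φ : κ ≃ₐ[k] κ, Dec V φ → φ δ = δ → ∀ z ∈ N, s φ z ∈ N := by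
    intro φ hφ hφδ z hz
    induction hz using IntermediateField.adjoin_induction with
    | mem y hy => exact IntermediateField.subset_adjoin R T (hTs φ hφ hφδ y hy)
    | algebraMap c =>
      obtain ⟨c', hc'⟩ := sec_R hR hs φ c
      rw [hc']
      exact N.algebraMap_mem c'
    | add a b _ _ ha hb => rw [map_add]; exact add_mem ha hb
    | inv a _ ha => rw [map_inv₀]; exact inv_mem ha
    | mul a b _ _ ha hb => rw [map_mul]; exact mul_mem ha hb
  refine ⟨N, lev_of_galois hC.pow N hfin hgal, ?_, ?_, ?_, fun z => ⟨fun h => ?_, hNs φ hφ hφδ z⟩⟩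
  · exact IntermediateField.subset_adjoin R T ⟨Or.inl hm₁, hz₁⟩
  · exact IntermediateField.subset_adjoin R T ⟨Or.inr hm₂, hz₂⟩
  · rw [hN, IntermediateField.adjoin_le_iff]
    exact fun w hw => hw.2
  · have := hNs φ⁻¹ (dec_inv hφ) (fix_inv hφδ) _ h
    rwa [s_inv_apply] at this

end Pool.Agent.Y748.PS
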