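import Pool.Agent.Y157.PS.Stm

/-!
# The weight argument, part 1: automorphisms and the residue field of `O`
-/

set_option autoImplicit false
set_option linter.all false

open Polynomial FF Pool.Agent.Y157.PS

namespace Pool.Agent.Y748.PS

section vs

variable {K : Type} [Field K] {O : ValuationSubring K}

theorem nu_mem {z : K} (h : z ∈ O.nonunits) : z ∈ O := ValuationSubring.nonunits_subset h

theorem nu_mul {a z : K} (ha : a ∈ O) (hz : z ∈ O.nonunits) : a * z ∈ O.nonunits := by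
  rw [ValuationSubring.mem_nonunits_iff_exists_mem_maximalIdeal] at *
  obtain ⟨h1, h2⟩ := hz
  exact ⟨mul_mem ha h1, Ideal.mul_mem_left _ (⟨a, ha⟩ : O) h2⟩

theorem nu_one : (1 : K) ∉ O.nonunits := by
  rw [ValuationSubring.mem_nonunits_iff, map_one]
  exact lt_irrefl _

theorem nu_map (φ : K ≃+* K) (h : ∀ z, φ z ∈ O ↔ z ∈ O) (z : K) :
    φ z ∈ O.nonunits ↔ z ∈ O.nonunits := by
  rw [ValuationSubring.mem_nonunits_iff_or, ValuationSubring.mem_nonunits_iff_or, ← map_inv₀, h,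
    EmbeddingLike.map_eq_zero_iff]

theorem isU_map (φ : K ≃+* K) (h : ∀ z, φ z ∈ O ↔ z ∈ O) (z : K) :
    IsU O (φ z) ↔ IsU O z := by
  unfold IsU
  rw [← map_inv₀, h, h, Ne, EmbeddingLike.map_eq_zero_iff]

/-- a root of unity of order a power of `ℓ`, a unit, which is congruent to `1` is `1` -/
theorem rou_eq_one {z : K} {m : ℕ} (hm : IsU O (m : K)) (hz : z ^ m = 1)
    (h1 : z - 1 ∈ O.nonunits) : z = 1 := by
  by_contra hne
  have hz1 : z - 1 ≠ 0 := sub_ne_zero.2 hne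
  have hzO : z ∈ O := by
    have := O.add_mem _ _ (nu_mem h1) O.one_mem
    simpa using this
  have h2 : (z - 1) * ∑ i ∈ Finset.range m, z ^ i = 0 := by
    rw [mul_comm, geom_sum_mul, hz, sub_self]
  have h3 : ∑ i ∈ Finset.range m, z ^ i = 0 := (mul_eq_zero.1 h2).resolve_left hz1
  have h4 : ∀ i : ℕ, z ^ i - 1 ∈ O.nonunits := by
    intro i
    have : z ^ i - 1 = (∑ j ∈ Finset.range i, z ^ j) * (z - 1) := (geom_sum_mul z i).symm
    rw [this]
    exact nu_mul (sum_mem fun j _ => pow_mem hzO j) h1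
  have h5 : (∑ i ∈ Finset.range m, (z ^ i - 1)) ∈ O.nonunits := sum_mem fun i _ => h4 i
  rw [Finset.sum_sub_distrib, h3] at h5
  simp only [Finset.sum_const, Finset.card_range, nsmul_eq_mul, mul_one, zero_sub] at h5
  have h6 : (m : K) ∈ O.nonunits := by
    have := neg_mem h5
    simpa using this
  have h7 := nu_mul hm.2.2 h6
  rw [inv_mul_cancel₀ hm.1] at h7
  exact nu_one h7

theorem isU_pow {a : K} (h : IsU O a) (n : ℕ) : IsU O (a ^ n) :=
  ⟨pow_ne_zero _ h.1, pow_mem h.2.1 n, by rw [← inv_pow]; exact pow_mem h.2.2 n⟩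

/-- the automorphism of the valuation ring -/
def resEquiv (O : ValuationSubring K) (φ : K ≃+* K) (h : ∀ z, φ z ∈ O ↔ z ∈ O) : O ≃+* O where
  toFun z := ⟨φ z, (h z).2 z.2⟩
  invFun z := ⟨φ.symm z, by rw [← h, RingEquiv.apply_symm_apply]; exact z.2⟩
  left_inv z := by ext; simp
  right_inv z := by ext; simp
  map_mul' a b := by ext; simp
  map_add' a b := by ext; simp

theorem res_residue (O : ValuationSubring K) : Res O (IsLocalRing.residue O) where
  surj := IsLocalRing.residue_surjective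
  ker z := by
    rw [IsLocalRing.residue_eq_zero_iff, ValuationSubring.coe_mem_nonunits_iff]

end vs

section

variable {κ R M : Type} [Field κ] [Field R] [Field M] [Algebra κ R] [Algebra R M] [Algebra κ M]
  [IsScalarTower κ R M] {x : R}

theorem map_aeval (φ : M ≃+* M) (φ₀ : κ ≃+* κ)
    (hφ : ∀ c, φ (algebraMap κ M c) = algebraMap κ M (φ₀ c)) {X : M} (hx : φ X = X) (p : κ[X]) :
    φ (aeval X p) = aeval X (p.map (φ₀ : κ →+* κ)) := by
  rw [aeval_def, aeval_def, eval₂_map]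
  have h1 : φ (eval₂ (algebraMap κ M) X p) =
      eval₂ ((φ : M →+* M).comp (algebraMap κ M)) ((φ : M →+* M) X) p :=
    Polynomial.hom_eval₂ p (algebraMap κ M) (φ : M →+* M) X
  rw [h1]
  congr 1
  ext c
  exact hφ c

/-- the Gauss valuation rings are permuted -/
theorem gauss_comap {V : ValuationSubring κ} {X : M} {O : ValuationSubring M} (hO : Gauss V X O)
    (φ : M ≃+* M) (φ₀ : κ ≃+* κ)
    (hφ : ∀ c, φ (algebraMap κ M c) = algebraMap κ M (φ₀ c)) (hx : φ X = X)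
    (hV : ∀ c, φ₀ c ∈ V ↔ c ∈ V) : Gauss V X (O.comap (φ : M →+* M)) := by
  refine ⟨fun c => ?_, fun p hp hp1 => ?_⟩
  · rw [ValuationSubring.mem_comap]
    show φ (algebraMap κ M c) ∈ O ↔ _
    rw [hφ, hO.1, hV]
  · have h1 := hO.2 (p.map (φ₀ : κ →+* κ)) (fun n => by
      rw [coeff_map]; exact (hV _).2 (hp n)) (by
      obtain ⟨n, hn⟩ := hp1
      refine ⟨n, ?_⟩
      rw [coeff_map]
      exact (isU_map φ₀ hV _).2 hn)
    rw [← map_aeval φ φ₀ hφ hx] at h1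
    obtain ⟨h2, h3, h4⟩ := h1
    rw [← map_inv₀] at h4
    exact ⟨by rintro h; rw [h, map_zero] at h2; exact h2 rfl,
      by rw [ValuationSubring.mem_comap]; exact h3, by rw [ValuationSubring.mem_comap]; exact h4⟩

theorem stab {V : ValuationSubring κ} {X : M} {O : ValuationSubring M} (hO : Gauss V X O)
    (hu : ∀ O' : ValuationSubring M, Gauss V X O' → O' = O)
    (φ : M ≃+* M) (φ₀ : κ ≃+* κ)
    (hφ : ∀ c, φ (algebraMap κ M c) = algebraMap κ M (φ₀ c)) (hx : φ X = X)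
    (hV : ∀ c, φ₀ c ∈ V ↔ c ∈ V) (z : M) : φ z ∈ O ↔ z ∈ O := by
  have h1 := hu _ (gauss_comap hO φ φ₀ hφ hx hV)
  have h2 : z ∈ O.comap (φ : M →+* M) ↔ z ∈ O := by rw [h1]
  rw [ValuationSubring.mem_comap] at h2
  exact h2

theorem gal_const (γ : M ≃ₐ[R] M) (c : κ) : γ (algebraMap κ M c) = algebraMap κ M c := by
  rw [IsScalarTower.algebraMap_apply κ R M, AlgEquiv.commutes]

theorem stabG {V : ValuationSubring κ} {O : ValuationSubring M}
    (hO : Gauss V (algebraMap R M x) O)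
    (hu : ∀ O' : ValuationSubring M, Gauss V (algebraMap R M x) O' → O' = O)
    (γ : M ≃ₐ[R] M) (z : M) : γ z ∈ O ↔ z ∈ O :=
  stab hO hu (γ : M ≃+* M) (RingEquiv.refl κ) (fun c => gal_const γ c) (γ.commutes x)
    (fun c => Iff.rfl) z

theorem nuG {V : ValuationSubring κ} {O : ValuationSubring M}
    (hO : Gauss V (algebraMap R M x) O)
    (hu : ∀ O' : ValuationSubring M, Gauss V (algebraMap R M x) O' → O' = O)
    (γ : M ≃ₐ[R] M) (z : M) : γ z ∈ O.nonunits ↔ z ∈ O.nonunits :=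
  nu_map (γ : M ≃+* M) (fun z => stabG hO hu γ z) z

variable {k : Type} [Field k] [Algebra k κ] {Y : M} {δ : κ} {s : (κ ≃ₐ[k] κ) →* RingAut M}

theorem stabS {V : ValuationSubring κ} {O : ValuationSubring M}
    (hO : Gauss V (algebraMap R M x) O)
    (hu : ∀ O' : ValuationSubring M, Gauss V (algebraMap R M x) O' → O' = O)
    (hs : Sec k κ R M x Y δ s) {σ : κ ≃ₐ[k] κ} (hσ : Dec V σ) (z : M) :
    s σ z ∈ O ↔ z ∈ O :=
  stab hO hu (s σ) (σ : κ ≃+* κ) (fun c => hs.const σ c) (hs.fixx σ) hσ z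

theorem nuS {V : ValuationSubring κ} {O : ValuationSubring M}
    (hO : Gauss V (algebraMap R M x) O)
    (hu : ∀ O' : ValuationSubring M, Gauss V (algebraMap R M x) O' → O' = O)
    (hs : Sec k κ R M x Y δ s) {σ : κ ≃ₐ[k] κ} (hσ : Dec V σ) (z : M) :
    s σ z ∈ O.nonunits ↔ z ∈ O.nonunits :=
  nu_map (s σ) (fun z => stabS hO hu hs hσ z) z

/-- `γ` and `s(σ)` induce the same automorphism of the residue field -/
def Rel (O : ValuationSubring M) (s : (κ ≃ₐ[k] κ) →* RingAut M) (σ : κ ≃ₐ[k] κ)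
    (γ : M ≃ₐ[R] M) : Prop := ∀ z ∈ O, γ z - s σ z ∈ O.nonunits

theorem Rel.exists (hG3 : S_G3) {ℓ : ℕ} [Fact ℓ.Prime] [IsAlgClosed κ] [CharZero κ] {B : Finset κ}
    (hC : Cov ℓ κ R M x B Y) {V : ValuationSubring κ} {O : ValuationSubring M}
    (hO : Gauss V (algebraMap R M x) O)
    (hu : ∀ O' : ValuationSubring M, Gauss V (algebraMap R M x) O' → O' = O)
    (hs : Sec k κ R M x Y δ s) {σ : κ ≃ₐ[k] κ} (hσ : Ine V σ) :
    ∃ γ : M ≃ₐ[R] M, Rel O s σ γ := by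
  have hst : ∀ z, s σ z ∈ O ↔ z ∈ O := stabS hO hu hs hσ.1
  obtain ⟨γ, hγ⟩ := hG3 ℓ κ R M x B Y hC V O hO hu (IsLocalRing.ResidueField O)
    (IsLocalRing.residue O) (res_residue O)
    (IsLocalRing.ResidueField.mapEquiv (resEquiv O (s σ) hst))
    (fun c hc => by
      show IsLocalRing.residue O (resEquiv O (s σ) hst ⟨_, hc⟩) = _
      rw [← sub_eq_zero, ← map_sub, (res_residue O).ker]
      show s σ (algebraMap κ M c) - algebraMap κ M c ∈ O.nonunits
      rw [hs.const, ← map_sub]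
      have h1 : c ∈ V := (hO.1 c).1 hc
      have h2 := hσ.2 c h1
      rw [ValuationSubring.mem_nonunits_iff_or] at h2 ⊢
      rcases h2 with h2 | h2
      · left; rw [h2, map_zero]
      · right
        rw [← map_inv₀, hO.1]
        exact h2)
    (fun hx => by
      show IsLocalRing.residue O (resEquiv O (s σ) hst ⟨_, hx⟩) = _
      congr 1
      ext
      exact hs.fixx σ)
  refine ⟨γ, fun z hz => ?_⟩
  have hγz : γ z ∈ O := (stabG hO hu γ z).2 hz
  have h1 := hγ z hz hγz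
  have h2 : IsLocalRing.residue O ⟨γ z, hγz⟩ =
      IsLocalRing.residue O (resEquiv O (s σ) hst ⟨z, hz⟩) := h1
  rw [← sub_eq_zero, ← map_sub, (res_residue O).ker] at h2
  exact h2

theorem Rel.unique (hG2 : S_G2) {ℓ : ℕ} [Fact ℓ.Prime] [IsAlgClosed κ] [CharZero κ] {B : Finset κ}
    (hC : Cov ℓ κ R M x B Y) {V : ValuationSubring κ} {O : ValuationSubring M}
    (hO : Gauss V (algebraMap R M x) O) (hl : IsU V (ℓ : κ))
    (hu : ∀ O' : ValuationSubring M, Gauss V (algebraMap R M x) O' → O' = O)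
    {σ : κ ≃ₐ[k] κ} {γ γ' : M ≃ₐ[R] M} (h : Rel O s σ γ) (h' : Rel O s σ γ') : γ = γ' := by
  have h1 : ∀ z ∈ O, (γ'⁻¹ * γ) z - z ∈ O.nonunits := by
    intro z hz
    have h2 := sub_mem (h z hz) (h' z hz)
    have h3 : γ z - s σ z - (γ' z - s σ z) = γ z - γ' z := by ring
    rw [h3, ← nuG hO hu γ'⁻¹, map_sub] at h2
    have h4 : γ'⁻¹ (γ' z) = z := by
      rw [← AlgEquiv.mul_apply, inv_mul_cancel, AlgEquiv.one_apply]
    rwa [h4] at h2
  have h2 := (hG2 ℓ κ R M x B Y hC V O hO).2 hl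
  have h3 : γ'⁻¹ * γ = 1 := by
    ext z
    obtain ⟨N, hzN, hN⟩ := hC.pow z
    exact h2 N hN (γ'⁻¹ * γ) (fun z hz _ => h1 z hz) z hzN
  exact (inv_mul_eq_one.1 h3).symm

theorem Rel.mul {V : ValuationSubring κ} {O : ValuationSubring M}
    (hO : Gauss V (algebraMap R M x) O)
    (hu : ∀ O' : ValuationSubring M, Gauss V (algebraMap R M x) O' → O' = O)
    (hs : Sec k κ R M x Y δ s) {σ σ' : κ ≃ₐ[k] κ} (hσ : Dec V σ) {γ γ' : M ≃ₐ[R] M}
    (h : Rel O s σ γ) (h' : Rel O s σ' γ') : Rel O s (σ * σ') (γ * γ') := by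
  intro z hz
  have h1 : γ' z ∈ O := (stabG hO hu γ' z).2 hz
  have h2 := h (γ' z) h1
  have h3 := (nuS hO hu hs hσ _).2 (h' z hz)
  have h4 := add_mem h2 h3
  rw [map_sub] at h4
  rw [map_mul]
  show γ (γ' z) - s σ (s σ' z) ∈ _
  have h5 : γ (γ' z) - s σ (γ' z) + (s σ (γ' z) - s σ (s σ' z)) =
      γ (γ' z) - s σ (s σ' z) := by ring
  rwa [h5] at h4

/-- `s(φ)` maps `R` to itself -/
theorem sec_R (hR : RatF κ x) (hs : Sec k κ R M x Y δ s) (φ : κ ≃ₐ[k] κ) (z : R) :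
    ∃ z' : R, s φ (algebraMap R M z) = algebraMap R M z' := by
  have hz : z ∈ IntermediateField.adjoin κ {x} := by rw [hR.gen]; trivial
  induction hz using IntermediateField.adjoin_induction with
  | mem y hy =>
    rw [Set.mem_singleton_iff] at hy
    subst hy
    exact ⟨y, hs.fixx φ⟩
  | algebraMap c =>
    refine ⟨algebraMap κ R (φ c), ?_⟩
    rw [← IsScalarTower.algebraMap_apply, hs.const, ← IsScalarTower.algebraMap_apply]
  | add a b _ _ ha hb =>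
    obtain ⟨a', ha⟩ := ha
    obtain ⟨b', hb⟩ := hb
    exact ⟨a' + b', by rw [map_add, map_add, ha, hb, map_add]⟩
  | inv a _ ha =>
    obtain ⟨a', ha⟩ := ha
    exact ⟨a'⁻¹, by rw [map_inv₀, map_inv₀, ha, map_inv₀]⟩
  | mul a b _ _ ha hb =>
    obtain ⟨a', ha⟩ := ha
    obtain ⟨b', hb⟩ := hb
    exact ⟨a' * b', by rw [map_mul, map_mul, ha, hb, map_mul]⟩

/-- conjugation by `s(φ)` -/
noncomputable def conj (hR : RatF κ x) (hs : Sec k κ R M x Y δ s) (φ : κ ≃ₐ[k] κ)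
    (γ : M ≃ₐ[R] M) : M ≃ₐ[R] M :=
  AlgEquiv.ofRingEquiv (f := s φ * (γ : M ≃+* M) * s φ⁻¹) (by
    intro z
    obtain ⟨z', hz'⟩ := sec_R hR hs φ⁻¹ z
    show s φ (γ (s φ⁻¹ (algebraMap R M z))) = _
    rw [hz', AlgEquiv.commutes, ← hz']
    show (s φ * s φ⁻¹) _ = _
    rw [← map_mul, mul_inv_cancel, map_one]
    rfl)

theorem conj_apply (hR : RatF κ x) (hs : Sec k κ R M x Y δ s) (φ : κ ≃ₐ[k] κ)
    (γ : M ≃ₐ[R] M) (z : M) : conj hR hs φ γ z = s φ (γ (s φ⁻¹ z)) := rfl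

theorem s_inv_apply (s : (κ ≃ₐ[k] κ) →* RingAut M) (φ : κ ≃ₐ[k] κ) (z : M) :
    s φ⁻¹ (s φ z) = z := by
  show (s φ⁻¹ * s φ) z = z
  rw [← map_mul, inv_mul_cancel, map_one]
  rfl

theorem s_apply_inv (s : (κ ≃ₐ[k] κ) →* RingAut M) (φ : κ ≃ₐ[k] κ) (z : M) :
    s φ (s φ⁻¹ z) = z := by
  show (s φ * s φ⁻¹) z = z
  rw [← map_mul, mul_inv_cancel, map_one]
  rfl

theorem dec_inv {V : ValuationSubring κ} {φ : κ ≃ₐ[k] κ} (h : Dec V φ) : Dec V φ⁻¹ := by
  intro z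
  have := h (φ⁻¹ z)
  rw [← AlgEquiv.mul_apply, mul_inv_cancel, AlgEquiv.one_apply] at this
  exact this.symm

theorem Rel.conj {V : ValuationSubring κ} {O : ValuationSubring M}
    (hO : Gauss V (algebraMap R M x) O)
    (hu : ∀ O' : ValuationSubring M, Gauss V (algebraMap R M x) O' → O' = O)
    (hR : RatF κ x) (hs : Sec k κ R M x Y δ s) {σ φ : κ ≃ₐ[k] κ} (hφ : Dec V φ)
    {γ : M ≃ₐ[R] M} (h : Rel O s σ γ) : Rel O s (φ * σ * φ⁻¹) (conj hR hs φ γ) := by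
  intro z hz
  have h1 : s φ⁻¹ z ∈ O := (stabS hO hu hs (dec_inv hφ) z).2 hz
  have h2 := (nuS hO hu hs hφ _).2 (h _ h1)
  rw [map_sub] at h2
  rw [conj_apply, map_mul, map_mul]
  exact h2

theorem dec_mul {V : ValuationSubring κ} {φ σ : κ ≃ₐ[k] κ} (h : Dec V φ) (h' : Dec V σ) :
    Dec V (φ * σ) := by
  intro z
  rw [AlgEquiv.mul_apply, h, h']

theorem dec_nu {V : ValuationSubring κ} {φ : κ ≃ₐ[k] κ} (h : Dec V φ) (z : κ) :
    φ z ∈ V.nonunits ↔ z ∈ V.nonunits := nu_map (φ : κ ≃+* κ) h z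

theorem ine_conj {V : ValuationSubring κ} {φ σ : κ ≃ₐ[k] κ} (h : Dec V φ) (h' : Ine V σ) :
    Ine V (φ * σ * φ⁻¹) := by
  refine ⟨dec_mul (dec_mul h h'.1) (dec_inv h), fun z hz => ?_⟩
  have h1 : φ⁻¹ z ∈ V := (dec_inv h z).2 hz
  have h2 := (dec_nu h _).2 (h'.2 _ h1)
  rw [map_sub] at h2
  have h3 : φ (φ⁻¹ z) = z := by rw [← AlgEquiv.mul_apply, mul_inv_cancel, AlgEquiv.one_apply]
  rw [h3] at h2
  exact h2

theorem ine_mul {V : ValuationSubring κ} {φ σ : κ ≃ₐ[k] κ} (h : Ine V φ) (h' : Ine V σ) :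
    Ine V (φ * σ) := by
  refine ⟨dec_mul h.1 h'.1, fun z hz => ?_⟩
  have h1 := h.2 (σ z) ((h'.1 z).2 hz)
  have h2 := add_mem h1 (h'.2 z hz)
  have h3 : φ (σ z) - σ z + (σ z - z) = φ (σ z) - z := by ring
  rw [h3] at h2
  exact h2

end

end Pool.Agent.Y748.PS
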